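import Pool.Agent.helper53.PV.SpecD

/-!
# Row pvd:DTB: the tracial states of the extension
-/

set_option autoImplicit false

open scoped Topology
open MeasureTheory Filter

namespace Pool.Agent.PV

open Pool.Agent.CZ

theorem DTB_ext {A : Type} [CStarAlgebra A] {t t' : TracialState A} (h : ∀ a, t.τ a = t'.τ a) : t = t' := by
  obtain ⟨τ, h1, h2, h3⟩ := t
  obtain ⟨τ', h1', h2', h3'⟩ := t'
  obtain rfl : τ = τ' := LinearMap.ext h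
  rfl

/-- restriction of a tracial state -/
noncomputable def DTB_res {A A₀ : Type} [CStarAlgebra A] [CStarAlgebra A₀] (Φ : A₀ →⋆ₐ[ℂ] A) (t : TracialState A) :
    TracialState A₀ where
  τ := t.τ.comp Φ.toAlgHom.toLinearMap
  pos a := by
    have h := t.pos (Φ a)
    have h1 : Φ (star a * a) = star (Φ a) * Φ a := by rw [map_mul, map_star]
    rw [← h1] at h
    exact h
  one := by
    show t.τ (Φ 1) = 1
    rw [map_one, t.one]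
  comm a b := by
    show t.τ (Φ (a * b)) = t.τ (Φ (b * a))
    rw [map_mul Φ, map_mul Φ, t.comm]

theorem DTB_cx {X X₀ : Type} [TopologicalSpace X] [TopologicalSpace X₀] {α : X ≃ₜ X} {α₀ : X₀ ≃ₜ X₀} {π : C(X, X₀)}
    {φ : InvSt α} {φ₀ : InvSt α₀} (h : ∀ k : C(X₀, ℝ), φ.φ (k.comp π) = φ₀.φ k) (f : C(X₀, ℂ)) :
    φ.cx (f.comp π) = φ₀.cx f := by
  show (⟨φ.φ (reC (f.comp π)), φ.φ (imC (f.comp π))⟩ : ℂ) = ⟨φ₀.φ (reC f), φ₀.φ (imC f)⟩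
  rw [← h (reC f), ← h (imC f)]
  rfl

theorem DTB_norm (z w : ℂ) (ε : ℝ) (h1 : |z.re - w.re| ≤ ε / 2) (h2 : |z.im - w.im| ≤ ε / 2) : ‖z - w‖ ≤ ε := by
  have h := Complex.norm_le_abs_re_add_abs_im (z - w)
  rw [Complex.sub_re, Complex.sub_im] at h
  linarith

theorem DTB (hJST : JST_stmt) (hJUN : JUN_stmt) (hJTR : JTR_stmt) (hJCX : JCX_stmt) : DTB_stmt := by
  intro X₀ Y X _ _ _ _ _ _ _ _ _ _ α₀ α π e r hE hm₀ hm A A₀ _ _ ι u c ι₀ u₀ c₀ hC hC₀ Φ hΦ hΦc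
  have happ : ∀ (a : A) (ε : ℝ), 0 < ε → ∃ a₀ : A₀, ∀ t : TracialState A, ‖t.τ a - t.τ (Φ a₀)‖ ≤ ε := by
    intro a ε hε
    obtain ⟨k₁, hk₁⟩ := hE.apx (reC (c 0 a)) (ε / 2) (by positivity)
    obtain ⟨k₂, hk₂⟩ := hE.apx (imC (c 0 a)) (ε / 2) (by positivity)
    refine ⟨ι₀ (rc k₁ + Complex.I • rc k₂), fun t => ?_⟩
    obtain ⟨φ, hφ⟩ := hJST X α A ι u hC.cov t
    obtain ⟨h1, h2, -, -, -, -, h3⟩ := hJCX X α φ
    rw [hJUN X α A ι u c hC hm t φ hφ a, hΦ, ← hφ]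
    have h4 : (rc k₁ + Complex.I • rc k₂).comp π = rc (k₁.comp π) + Complex.I • rc (k₂.comp π) := rfl
    rw [h4, h1, h2, h3, h3]
    apply DTB_norm
    · have h5 := hk₁ φ
      have h6 : ((φ.φ (k₁.comp π) : ℂ) + Complex.I * (φ.φ (k₂.comp π) : ℂ)).re = φ.φ (k₁.comp π) := by
        simp
      rw [h6]
      exact h5
    · have h5 := hk₂ φ
      have h6 : ((φ.φ (k₁.comp π) : ℂ) + Complex.I * (φ.φ (k₂.comp π) : ℂ)).im = φ.φ (k₂.comp π) := by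
        simp
      rw [h6]
      exact h5
  refine ⟨fun t => ⟨DTB_res Φ t, fun a => rfl⟩, ?_, ?_, happ⟩
  · intro t₀
    obtain ⟨φ₀, hφ₀⟩ := hJST X₀ α₀ A₀ ι₀ u₀ hC₀.cov t₀
    obtain ⟨φ, hφ⟩ := hE.lift φ₀
    obtain ⟨t, ht⟩ := hJTR X α A ι u c hC φ
    refine ⟨t, fun a => ?_⟩
    rw [ht, hΦc, DTB_cx hφ, hJUN X₀ α₀ A₀ ι₀ u₀ c₀ hC₀ hm₀ t₀ φ₀ hφ₀ a]
  · intro t t' h
    apply DTB_ext
    intro a
    by_contra hne
    have hpos : 0 < ‖t.τ a - t'.τ a‖ := norm_pos_iff.2 (sub_ne_zero.2 hne)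
    obtain ⟨a₀, ha₀⟩ := happ a (‖t.τ a - t'.τ a‖ / 3) (by positivity)
    have h1 := ha₀ t
    have h2 := ha₀ t'
    rw [← h a₀] at h2
    have h3 : ‖t.τ a - t'.τ a‖ ≤ ‖t.τ a - t.τ (Φ a₀)‖ + ‖t'.τ a - t.τ (Φ a₀)‖ := by
      have h4 : t.τ a - t'.τ a = (t.τ a - t.τ (Φ a₀)) - (t'.τ a - t.τ (Φ a₀)) := by ring
      rw [h4]
      exact norm_sub_le _ _
    linarith

end Pool.Agent.PV
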