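import Pool.Agent.helper53.PV.SpecD

/-!
# Row pvd:JKT: invariant states and tracial states, affine homeomorphism
-/

set_option autoImplicit false

open scoped Topology
open MeasureTheory Filter

namespace Pool.Agent.PV

open Pool.Agent.CZ

theorem JKT_ext {A : Type} [CStarAlgebra A] {t t' : TracialState A} (h : ∀ a, t.τ a = t'.τ a) : t = t' := by
  obtain ⟨τ, h1, h2, h3⟩ := t
  obtain ⟨τ', h1', h2', h3'⟩ := t'
  obtain rfl : τ = τ' := LinearMap.ext h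
  rfl

theorem JKT_ist {X : Type} [TopologicalSpace X] {α : X ≃ₜ X} {φ ψ : InvSt α} (h : ∀ g, φ.φ g = ψ.φ g) : φ = ψ := by
  obtain ⟨φ, h1, h2, h3⟩ := φ
  obtain ⟨φ', h1', h2', h3'⟩ := ψ
  obtain rfl : φ = φ' := LinearMap.ext h
  rfl

theorem JKT_c0 {X : Type} [TopologicalSpace X] [CompactSpace X] {α : X ≃ₜ X} {A : Type} [CStarAlgebra A]
    {ι : C(X, ℂ) →⋆ₐ[ℂ] A} {u : unitary A} {c : ℤ → A →ₗ[ℂ] C(X, ℂ)} (h : Cov α ι u c) (f : C(X, ℂ)) :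
    c 0 (ι f) = f := by
  have h1 := h.cval 0 0 f
  rw [if_pos rfl] at h1
  have h2 : up u 0 = 1 := by
    show ((u ^ (0 : ℤ) : unitary A) : A) = 1
    rw [zpow_zero]
    rfl
  rwa [h2, mul_one] at h1

theorem JKT (hJST : JST_stmt) (hJUN : JUN_stmt) (hJTR : JTR_stmt) (hJCX : JCX_stmt) : JKT_stmt := by
  intro X _ _ _ _ α A _ ι u c hC hm E _ _ _ K φ hφ haff
  choose τ hτ using fun t : K => hJTR X α A ι u c hC (φ t)
  refine ⟨τ, ⟨?_, ?_⟩, hτ, ?_⟩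
  · intro s t hst
    apply hφ.1
    apply JKT_ist
    intro g
    have h1 := hτ s (ι (rc g))
    have h2 := hτ t (ι (rc g))
    rw [JKT_c0 hC, (hJCX X α (φ s)).2.2.2.2.2.2 g] at h1
    rw [JKT_c0 hC, (hJCX X α (φ t)).2.2.2.2.2.2 g, ← hst, h1] at h2
    exact Complex.ofReal_injective h2
  · intro t'
    obtain ⟨ψ, hψ⟩ := hJST X α A ι u hC.cov t'
    obtain ⟨t, ht⟩ := hφ.2 ψ
    refine ⟨t, JKT_ext fun a => ?_⟩
    rw [hτ t a, ht]
    exact (hJUN X α A ι u c hC hm t' ψ hψ a).symm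
  · intro a
    obtain ⟨b, hb, hb'⟩ := haff (reC (c 0 a))
    obtain ⟨d, hd, hd'⟩ := haff (imC (c 0 a))
    refine ⟨b, d, hb, hd, fun t => ?_⟩
    rw [hτ t a, hb' t, hd' t]
    rfl

end Pool.Agent.PV
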